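import Pool.Agent.H7.LP.Targets

/-!
# EXN: every point has a node (helper64)
-/

set_option autoImplicit false

open Set Filter Topology

namespace Pool.Agent.H64.LPG

open Pool.Agent.H93.CP Pool.Agent.H7.LP

theorem pf_EXN (h1 : T_LAB) (h2 : T_TGA) : T_EXN := by
  intro G X _ _ _ _ _ L M _ Y P x
  obtain ⟨h, hh, z, hz, he⟩ := P.rep 0 x 1
  obtain ⟨l1, -, -, -, l5, l6, -⟩ := h1 G
  have hP := L.piece 0
  have hcl : IsClosed (Stb (L.H 0) (lab (L.R 0) (tr z.2 (Y.C z.1))) : Set G) :=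
    l5 _ _ ((L.H 0).isClosed_of_isOpen hP.op) fun n => l1 _ _ _
  obtain ⟨K, hK1, hK2, hK3, hK4⟩ := h2 G (L.R 0) (L.H 0)
    (Stb (L.H 0) (lab (L.R 0) (tr z.2 (Y.C z.1))))
    (Stb (L.H 0) (lab (L.R 0) (tr z.2 (Y.C z.1)))) hP hcl (l6 _ _ _ hP) (fun g hg => hg.1)
    (l6 _ _ _ hP) le_rfl ⟨univ, univ_mem, fun g hg _ => hg⟩
  exact ⟨⟨0, z, K, hz, hK1, hK2, hK3, hK4⟩, h * 1, he⟩

end Pool.Agent.H64.LPG
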