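import Pool.Agent.H7.LP.Targets

/-!
# STE: steps exist for structures of codes (helper64)
-/

set_option autoImplicit false

open Set Filter Topology

namespace Pool.Agent.H64.LPG

open Pool.Agent.H93.CP Pool.Agent.H7.LP

theorem pf_STE (h1 : T_PRS) (h2 : T_DIC) : T_STE := by
  classical
  intro G X _ _ _ _ L M _ Y S x e w hc hs s i b hi
  obtain ⟨m0, -, hm0⟩ := L.conj (b⁻¹ * e i) s
  -- the second index
  obtain ⟨l, hl1, hl2, hl3, ⟨n, hn⟩, hl5⟩ := h2 G X L M Y S x e w hc hs i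
    (if pres w (Nat.unpair s).1 then Nat.unpair s else i) m0 hi (by
      split_ifs with h
      · exact h
      · exact hi)
  obtain ⟨-, -, hadm, hgm⟩ := (hs l i n).1 hn
  set u : G := (S.gm n)⁻¹ * (e l * (e i)⁻¹) with hu
  have hopen : {κ : G | b⁻¹ * (κ⁻¹ * u) * b ∈ L.H s} ∈ 𝓝 u := by
    apply IsOpen.mem_nhds
    · exact (L.piece s).op.preimage (by fun_prop)
    · show b⁻¹ * (u⁻¹ * u) * b ∈ L.H s
      rw [inv_mul_cancel, mul_one, inv_mul_cancel]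
      exact (L.H s).one_mem
  obtain ⟨m, hm⟩ := S.kapD i.1 u hgm _ hopen
  refine ⟨l, S.gm n * S.kap i.1 m * b, ⟨n, m, hn, rfl⟩, fun hp => ?_, fun r hr => ?_⟩
  · obtain ⟨n', hn'⟩ := hl5
    rw [if_pos hp] at hn'
    exact ⟨n', hn'⟩
  · have h3 : (e l)⁻¹ * r * (e l)⁻¹⁻¹ ∈ L.R (S.k l.1) :=
      (L.piece _).nor _ ((L.H _).inv_mem hl3) r hr
    have h4 : ∀ a c : ℕ, a ≤ c → L.R c ≤ L.R a := fun a c hac =>
      antitone_nat_of_succ_le L.antR hac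
    have h5 := hm0 _ (h4 m0 _ hl2 h3)
    have h6 := (L.piece s).nor _ hm _ h5
    have h7 : (S.gm n * S.kap i.1 m * b)⁻¹ * r * (S.gm n * S.kap i.1 m * b) =
        b⁻¹ * ((S.kap i.1 m)⁻¹ * u) * b * (b⁻¹ * e i * ((e l)⁻¹ * r * (e l)⁻¹⁻¹) *
          (b⁻¹ * e i)⁻¹) * (b⁻¹ * ((S.kap i.1 m)⁻¹ * u) * b)⁻¹ := by
      rw [hu]
      group
    rw [h7]
    exact h6

end Pool.Agent.H64.LPG
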